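import Pool.Agent.Helper13.SA.Canonical

open Pool.Agent.Helper13.SA MulAction

namespace Pool.Agent.Results.MP_d22324_al.ChoiceIndependence

/-- Strong accessibility over finite or virtually infinite cyclic groups does not depend on the
choices made in the process. -/
theorem result :
    (∀ (G : Type) [Group G] [Group.FG G] (S : Splitting FinVZ G),
      (StronglyAccessible FinVZ G ↔ ∀ v : S.V, StronglyAccessible FinVZ (stabilizer G v)) ∧
      ∀ (n : ℕ) (A : Set (Subgroup G)), StopsAt FinVZ n G A →
        ∀ v : S.V, ∃ A', StopsAt FinVZ (n + 1) (stabilizer G v) A') ∧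
    (∀ (G : Type) [Group G] [Group.FG G] (n : ℕ) (A : Set (Subgroup G)),
      StopsAt FinVZ n G A → CanonicalStops (2 * n + 2) G) ∧
    (∀ K : GroupClass,
      (∀ (G : Type) [Group G], K G → Group.FG G ∧
        (Splits FinVZ G → ∃ S : Splitting FinVZ G, Canonical S) ∧
        ∀ (S : Splitting FinVZ G) (v : S.V), K (stabilizer G v)) →
      ∀ (G : Type) [Group G], K G → (StronglyAccessible FinVZ G ↔ ∃ n, CanonicalStops n G)) :=
  choice_independence

end Pool.Agent.Results.MP_d22324_al.ChoiceIndependence
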