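import Pool.Agent.Helper13.SA.FiniteNormal

open Pool.Agent.Helper13.SA

namespace Pool.Agent.Results.MP_d22324_al.Permanence

/-- Permanence properties of strong accessibility over finite or virtually infinite cyclic groups:
finitely generated subgroups whose intersections with the conjugates of the terminal groups are
strongly accessible, and extensions with finite kernel. -/
theorem result :
    (∀ (G : Type) [Group G] (n : ℕ) (A : Set (Subgroup G)), StopsAt FinVZ n G A →
      ∀ H : Subgroup G, H.FG →
        (∀ B ∈ A, ∀ g : G, (H ⊓ cj g B).FG → StronglyAccessible FinVZ ↥(H ⊓ cj g B)) →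
        StronglyAccessible FinVZ H) ∧
    (∀ (G Q : Type) [Group G] [Group Q] (π : G →* Q), Function.Surjective π → Finite π.ker →
      (StronglyAccessible FinVZ G ↔ StronglyAccessible FinVZ Q)) :=
  permanence

end Pool.Agent.Results.MP_d22324_al.Permanence
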