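import Mathlib
import Pool.Agent.Helper21.SG.Defs
import Pool.Agent.Helper21.SG.B.Cen

open Pool.Agent.Helper21.SG

namespace Pool.Agent.Results.MP_d22324_al.SubgroupSplittings

/-- The process of iterated splittings over finite or virtually infinite cyclic groups, seen from a
finitely generated subgroup with bounded torsion: whatever the choices, the number of the splittings
for which the subgroup acts over finite groups is bounded. The groups on which strong accessibility
depends have no such splittings, for any given finite set of such subgroups; in particular the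
reflections in their dihedral edge groups are isolated. -/
theorem result :
    (∀ (G : Type) [Group G] (K : Subgroup G) (d B k : ℕ) (s : Fin d → G),
      Subgroup.closure (Set.range s) = K →
      (∀ F : Subgroup G, F ≤ K → Finite F → Nat.card F ≤ B) →
      RunSeen K G (MonoidHom.id G) k → k ≤ B * (d - 1)) ∧
    (∀ (G : Type) [Group G] (𝒦 : Set (Subgroup G)), 𝒦.Finite → (∀ K ∈ 𝒦, K.FG) →
      (∀ K ∈ 𝒦, ∃ B : ℕ, ∀ F : Subgroup G, F ≤ K → Finite F → Nat.card F ≤ B) →
      ¬ StronglyAccessible FinVZ G →
      ∃ (H : Type) (_ : Group H) (f : H →* G), Iter G H f ∧ ¬ StronglyAccessible FinVZ H ∧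
        ∀ (L : Type) [Group L] (p : L →* H), Iter H L p → ¬ StronglyAccessible FinVZ L →
          (∀ S : Splitting FinVZ L, ∀ K ∈ 𝒦, ¬ Sees K (f.comp p) S) ∧
          (⊤ ∈ 𝒦 → Infinite L ∧ ¬ Splits FinC L) ∧
          (TameTorsion G → ∀ S : Splitting FinVZ L, ¬ CenSplits S)) :=
  Pool.Agent.Helper21.SG.subgroup_splittings

end Pool.Agent.Results.MP_d22324_al.SubgroupSplittings
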