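import Pool.Agent.Helper13.SA.Unique

open Pool.Agent.Helper13.SA

namespace Pool.Agent.Results.MP_d22324_al.TerminalGroups

/-- The terminal groups of a stopping process of splittings over finite or virtually infinite
cyclic groups are unique up to conjugacy, apart from the finite and virtually cyclic ones. -/
theorem result (G : Type) [Group G] [Group.FG G] (n : ℕ) (A : Set (Subgroup G))
    (h : StopsAt FinVZ n G A) :
    A.Finite ∧
    (∀ K : Subgroup G, K.FG → ¬ Splits FinVZ K → ∃ B ∈ A, ∃ g : G, K ≤ cj g B) ∧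
    (∀ B ∈ A, ∀ B' ∈ A, ∀ g : G, ¬ FinVZ ↥(B ⊓ cj g B') → B = B' ∧ g ∈ B) ∧
    (∀ K : Subgroup G, MaxNS FinVZ K ↔ ¬ FinVZ K ∧ ∃ B ∈ A, ∃ g : G, K = cj g B) ∧
    (∀ (m : ℕ) (A' : Set (Subgroup G)), StopsAt FinVZ m G A' → ∀ B ∈ A, ¬ FinVZ B →
      ∃! B', B' ∈ A' ∧ ∃ g : G, B = cj g B') :=
  terminal_groups good_finVZ n A h

end Pool.Agent.Results.MP_d22324_al.TerminalGroups
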